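import Pool.Agent.J4.H84.QM.Red

/-!
# Mixed states: separation
-/

set_option autoImplicit false

open Set Filter Topology

noncomputable section

namespace Pool.Agent.J4.H84.QM

lemma le_tri {r m : ℕ} (h : r * (r + 1) / 2 ≤ m + 1) : r ≤ m + 1 := by
  rcases Nat.eq_zero_or_pos r with h0 | h0
  · omega
  · have h1 : r ≤ r * (r + 1) / 2 := by
      rw [Nat.le_div_iff_mul_le (by norm_num)]
      nlinarith
    exact h1.trans h

section

variable {ι : Type} [Fintype ι]

/-- the inner product as a bilinear form -/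
def ip (ι : Type) [Fintype ι] :
    EuclideanSpace ℝ ι →ₗ[ℝ] EuclideanSpace ℝ ι →ₗ[ℝ] ℝ :=
  LinearMap.mk₂ ℝ (fun x y => inner ℝ x y) (fun x y z => inner_add_left x y z)
    (fun c x y => by rw [real_inner_smul_left]; rfl) (fun x y z => inner_add_right x y z)
    (fun c x y => by rw [real_inner_smul_right]; rfl)

lemma ip_self (x : EuclideanSpace ℝ ι) : ip ι x x = ‖x‖ ^ 2 := real_inner_self_eq_norm_sq x

/-- the vector `q` is the vector of the values of a mixed state if no linear functional separates it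
from the pure states -/
theorem sepm {m : ℕ} (k : Fin m → EuclideanSpace ℝ ι →ₗ[ℝ] EuclideanSpace ℝ ι →ₗ[ℝ] ℝ)
    (hk : ∀ i, Continuous fun x => k i x x) (q : Fin m → ℝ)
    (h : ∀ (s : Fin m → ℝ) (u : ℝ),
      (∀ x : EuclideanSpace ℝ ι, ‖x‖ = 1 → u ≤ ∑ i, s i * k i x x) → u ≤ ∑ i, s i * q i) :
    ∃ v : Fin (m + 1) → EuclideanSpace ℝ ι, ∑ l, ‖v l‖ ^ 2 = 1 ∧
      ∀ i, ∑ l, k i (v l) (v l) = q i := by
  classical
  set F : (Fin (m + 1) → EuclideanSpace ℝ ι) → (Fin m → ℝ) :=
    fun v i => ∑ l, k i (v l) (v l) with hF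
  set K : Set (Fin (m + 1) → EuclideanSpace ℝ ι) := {v | ∑ l, ‖v l‖ ^ 2 = 1} with hK
  have hFc : Continuous F := by
    refine continuous_pi fun i => continuous_finset_sum _ fun l _ => ?_
    exact (hk i).comp (continuous_apply l)
  have hKc : IsCompact K := by
    refine Metric.isCompact_of_isClosed_isBounded ?_ ?_
    · refine isClosed_eq ?_ continuous_const
      exact continuous_finset_sum _ fun l _ => ((continuous_apply l).norm).pow 2
    · refine (Metric.isBounded_closedBall (x := 0) (r := 1)).subset fun v hv => ?_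
      rw [mem_closedBall_zero_iff, pi_norm_le_iff_of_nonneg zero_le_one]
      intro l
      have h1 : ‖v l‖ ^ 2 ≤ 1 := by
        rw [← (hv : ∑ l, ‖v l‖ ^ 2 = 1)]
        exact Finset.single_le_sum (f := fun l => ‖v l‖ ^ 2) (fun l _ => sq_nonneg _)
          (Finset.mem_univ l)
      nlinarith [norm_nonneg (v l)]
  have hSc : IsClosed (F '' K) := (hKc.image hFc).isClosed
  have hSconv : Convex ℝ (F '' K) := by
    rintro _ ⟨v, hv, rfl⟩ _ ⟨v', hv', rfl⟩ α α' hα hα' hαα
    set z : Fin ((m + 1) + (m + 1)) → EuclideanSpace ℝ ι :=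
      Fin.append (fun l => Real.sqrt α • v l) (fun l => Real.sqrt α' • v' l) with hz
    have hz1 : ∀ B : EuclideanSpace ℝ ι →ₗ[ℝ] EuclideanSpace ℝ ι →ₗ[ℝ] ℝ,
        ∑ l, B (z l) (z l) = α * ∑ l, B (v l) (v l) + α' * ∑ l, B (v' l) (v' l) := by
      intro B
      rw [Fin.sum_univ_add, Finset.mul_sum, Finset.mul_sum]
      congr 1
      · refine Finset.sum_congr rfl fun l _ => ?_
        simp only [hz, Fin.append_left, map_smul, LinearMap.smul_apply, smul_eq_mul]
        rw [← mul_assoc, Real.mul_self_sqrt hα]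
      · refine Finset.sum_congr rfl fun l _ => ?_
        simp only [hz, Fin.append_right, map_smul, LinearMap.smul_apply, smul_eq_mul]
        rw [← mul_assoc, Real.mul_self_sqrt hα']
    obtain ⟨r, w, hr, hw⟩ := reduce
      (Fin.cons (ip ι) k : Fin (m + 1) → EuclideanSpace ℝ ι →ₗ[ℝ] EuclideanSpace ℝ ι →ₗ[ℝ] ℝ) z
    obtain ⟨n, hn⟩ : ∃ n, m + 1 = r + n := ⟨m + 1 - r, by
      have := le_tri hr
      omega⟩
    set w' : Fin (m + 1) → EuclideanSpace ℝ ι :=
      fun l => Fin.append w (fun _ : Fin n => 0) (Fin.cast hn l) with hw'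
    have hw1 : ∀ B : EuclideanSpace ℝ ι →ₗ[ℝ] EuclideanSpace ℝ ι →ₗ[ℝ] ℝ,
        ∑ l, B (w' l) (w' l) = ∑ l, B (w l) (w l) := by
      intro B
      have h1 : ∑ l, B (w' l) (w' l) = ∑ l : Fin (r + n),
          B (Fin.append w (fun _ : Fin n => 0) l) (Fin.append w (fun _ : Fin n => 0) l) :=
        Equiv.sum_comp (finCongr hn) fun l =>
          B (Fin.append w (fun _ : Fin n => 0) l) (Fin.append w (fun _ : Fin n => 0) l)
      rw [h1, Fin.sum_univ_add]
      simp only [Fin.append_left, Fin.append_right, map_zero, Finset.sum_const_zero, add_zero]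
    refine ⟨w', ?_, ?_⟩
    · show ∑ l, ‖w' l‖ ^ 2 = 1
      have h1 := hw 0
      simp only [Fin.cons_zero] at h1
      rw [hz1] at h1
      simp only [← ip_self]
      rw [hw1, h1]
      simp only [ip_self]
      rw [(hv : ∑ l, ‖v l‖ ^ 2 = 1), (hv' : ∑ l, ‖v' l‖ ^ 2 = 1)]
      linarith
    · funext i
      have h1 := hw i.succ
      simp only [Fin.cons_succ] at h1
      rw [hz1] at h1
      show ∑ l, k i (w' l) (w' l) = α * ∑ l, k i (v l) (v l) + α' * ∑ l, k i (v' l) (v' l)
      rw [hw1, h1]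
  by_cases hq : q ∈ F '' K
  · obtain ⟨v, hv, hvq⟩ := hq
    exact ⟨v, hv, fun i => congrFun hvq i⟩
  · exfalso
    obtain ⟨f, u, hfq, hfS⟩ := geometric_hahn_banach_point_closed hSconv hSc hq
    set s : Fin m → ℝ := fun i => f (Pi.single i 1) with hs
    have hf : ∀ y : Fin m → ℝ, f y = ∑ i, s i * y i := by
      intro y
      have h1 := LinearMap.pi_apply_eq_sum_univ (f : (Fin m → ℝ) →ₗ[ℝ] ℝ) y
      have h2 : f y = ∑ i, y i • f (fun j => if i = j then 1 else 0) := h1
      rw [h2]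
      refine Finset.sum_congr rfl fun i _ => ?_
      have h3 : (fun j => if i = j then (1 : ℝ) else 0) = Pi.single i 1 := by
        funext j
        rw [Pi.single_apply]
        simp only [eq_comm]
      rw [h3, smul_eq_mul, mul_comm]
    have h1 := h s u fun x hx => by
      have h2 : F (fun l => if l = 0 then x else 0) ∈ F '' K := by
        refine mem_image_of_mem F ?_
        show ∑ l, ‖(if l = 0 then x else 0 : EuclideanSpace ℝ ι)‖ ^ 2 = 1
        rw [Finset.sum_eq_single 0]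
        · simp [hx]
        · intro l _ hl
          simp [hl]
        · intro h; exact absurd (Finset.mem_univ _) h
      have h3 := hfS _ h2
      rw [hf] at h3
      refine h3.le.trans (le_of_eq ?_)
      refine Finset.sum_congr rfl fun i _ => ?_
      congr 1
      show ∑ l, k i (if l = 0 then x else 0) (if l = 0 then x else 0) = k i x x
      rw [Finset.sum_eq_single 0]
      · simp
      · intro l _ hl
        simp [hl]
      · intro h; exact absurd (Finset.mem_univ _) h
    rw [hf] at hfq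
    linarith

/-- the mixed state has few components, which are orthogonal -/
theorem sepo {m : ℕ} (k : Fin m → EuclideanSpace ℝ ι →ₗ[ℝ] EuclideanSpace ℝ ι →ₗ[ℝ] ℝ)
    (hk : ∀ i, Continuous fun x => k i x x) (q : Fin m → ℝ)
    (h : ∀ (s : Fin m → ℝ) (u : ℝ),
      (∀ x : EuclideanSpace ℝ ι, ‖x‖ = 1 → u ≤ ∑ i, s i * k i x x) → u ≤ ∑ i, s i * q i) :
    ∃ (r : ℕ) (w : Fin r → EuclideanSpace ℝ ι) (c : Fin r → ℝ), r * (r + 1) / 2 ≤ m + 1 ∧
      (∀ p p', inner ℝ (w p) (w p') = if p = p' then (1 : ℝ) else 0) ∧ (∀ p, 0 < c p) ∧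
      ∑ p, c p = 1 ∧ ∀ i, ∑ p, c p * k i (w p) (w p) = q i := by
  classical
  obtain ⟨v, hv1, hv2⟩ := sepm k hk q h
  obtain ⟨r, w, hr, hw, hw0, ho⟩ := reduce_orth
    (Fin.cons (ip ι) k : Fin (m + 1) → EuclideanSpace ℝ ι →ₗ[ℝ] EuclideanSpace ℝ ι →ₗ[ℝ] ℝ)
    (ip ι) (fun u v => real_inner_comm v u) v
  have hn : ∀ p, 0 < ‖w p‖ := fun p => norm_pos_iff.2 (hw0 p)
  refine ⟨r, fun p => ‖w p‖⁻¹ • w p, fun p => ‖w p‖ ^ 2, hr, ?_, fun p => by
    have := hn p
    positivity, ?_, ?_⟩
  · intro p p'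
    show inner ℝ (‖w p‖⁻¹ • w p) (‖w p'‖⁻¹ • w p') = _
    rw [real_inner_smul_left, real_inner_smul_right]
    by_cases hpp : p = p'
    · subst hpp
      rw [if_pos rfl, real_inner_self_eq_norm_sq]
      have := (hn p).ne'
      field_simp
    · rw [if_neg hpp]
      have h1 : inner ℝ (w p) (w p') = (0 : ℝ) := ho p p' hpp
      rw [h1, mul_zero, mul_zero]
  · have h1 := hw 0
    simp only [Fin.cons_zero, ip_self] at h1
    rw [h1, hv1]
  · intro i
    have h1 := hw i.succ
    simp only [Fin.cons_succ] at h1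
    rw [← hv2 i, ← h1]
    refine Finset.sum_congr rfl fun p _ => ?_
    show ‖w p‖ ^ 2 * k i (‖w p‖⁻¹ • w p) (‖w p‖⁻¹ • w p) = _
    simp only [map_smul, LinearMap.smul_apply, smul_eq_mul]
    have := (hn p).ne'
    field_simp

end

end Pool.Agent.J4.H84.QM
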