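import Pool.Agent.J4.H84.QM.Min

/-!
# Mixed states: the abstract theorem
-/

set_option autoImplicit false

open Set Filter Topology MeasureTheory
open scoped Real ContDiff

noncomputable section

namespace Pool.Agent.J4.H84.QM

open Pool.Agent.Y262.QE Pool.Agent.Y264.QR

section lip

variable {M : Type} [MetricSpace M] [CompactSpace M] [MeasurableSpace M] [BorelSpace M]
  (μ : Measure M) [IsFiniteMeasure μ]

lemma logl {x y c : ℝ} (hx : 0 < x) (hy : 0 < y) (h : x ≤ Real.exp c * y) :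
    Real.log x - Real.log y ≤ c := by
  have h1 := Real.log_le_log hx h
  rw [Real.log_mul (Real.exp_pos _).ne' hy.ne', Real.log_exp] at h1
  linarith

lemma A_le (φ ψ : C(M, ℝ)) :
    ∫ x, Real.exp (φ x) ∂μ ≤ Real.exp ‖φ - ψ‖ * ∫ x, Real.exp (ψ x) ∂μ := by
  rw [← integral_const_mul]
  refine integral_mono (Pool.Agent.Y155.QR.int_cont μ (by fun_prop))
    (Pool.Agent.Y155.QR.int_cont μ (by fun_prop)) fun x => ?_
  show Real.exp (φ x) ≤ Real.exp ‖φ - ψ‖ * Real.exp (ψ x)
  rw [← Real.exp_add]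
  refine Real.exp_le_exp.2 ?_
  have h1 : |(φ - ψ) x| ≤ ‖φ - ψ‖ := (φ - ψ).norm_coe_le_norm x
  have h2 := (abs_le.1 h1).2
  rw [ContinuousMap.sub_apply] at h2
  linarith

end lip

section abs

variable {M : Type} [MetricSpace M] [CompactSpace M] [MeasurableSpace M] [BorelSpace M]
  (μ : Measure M) [IsFiniteMeasure μ] {H : Type} [NormedAddCommGroup H] [InnerProductSpace ℝ H]
  (i : H →L[ℝ] Lp ℝ 2 μ) (a : H →L[ℝ] H →L[ℝ] ℝ) (b : C(M, ℝ) → H →L[ℝ] H →L[ℝ] ℝ)
  (hSf : Sf μ i a) (hB : IsB μ i b) (hW : Wl μ a b)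

/-- the conformal factor with the parameter `t` -/
def ph {m : ℕ} (φ₀ : C(M, ℝ)) (h : Fin m → C(M, ℝ)) (t : EuclideanSpace ℝ (Fin m)) : C(M, ℝ) :=
  φ₀ + ∑ l, t l • h l

lemma ph_sub {m : ℕ} (φ₀ : C(M, ℝ)) (h : Fin m → C(M, ℝ)) (s t : EuclideanSpace ℝ (Fin m)) :
    ‖ph φ₀ h s - ph φ₀ h t‖ ≤ (∑ l, ‖h l‖) * ‖s - t‖ := by
  have e1 : ph φ₀ h s - ph φ₀ h t = ∑ l, (s l - t l) • h l := by
    unfold ph
    rw [add_sub_add_left_eq_sub, ← Finset.sum_sub_distrib]
    exact Finset.sum_congr rfl fun l _ => (sub_smul _ _ _).symm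
  rw [e1, Finset.sum_mul]
  refine (norm_sum_le _ _).trans (Finset.sum_le_sum fun l _ => ?_)
  rw [norm_smul, mul_comm]
  refine mul_le_mul_of_nonneg_left ?_ (norm_nonneg _)
  exact PiLp.norm_apply_le (s - t) l

lemma ph_line {m : ℕ} (φ₀ : C(M, ℝ)) (h : Fin m → C(M, ℝ)) (s t : EuclideanSpace ℝ (Fin m))
    (τ : ℝ) : ph φ₀ h (t + τ • s) = ph φ₀ h t + τ • ∑ l, s l • h l := by
  unfold ph
  rw [add_assoc, Finset.smul_sum, ← Finset.sum_add_distrib]
  congr 1
  refine Finset.sum_congr rfl fun l _ => ?_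
  rw [PiLp.add_apply, PiLp.smul_apply, smul_eq_mul, add_smul, mul_smul]

include hSf hB hW in
theorem absm (hex : ∀ φ, ∃ (e : ℕ → H) (E : ℕ → ℝ), Eg a (b φ) e E) {m : ℕ}
    (φ₀ : C(M, ℝ)) (h : Fin m → C(M, ℝ)) (δ : ℝ) (hδ : 0 < δ) :
    ∃ J : ℕ, ∀ j, J ≤ j → ∃ t : EuclideanSpace ℝ (Fin m), ‖t‖ < δ ∧
      ∃ (r : ℕ) (w : Fin r → H) (c : Fin r → ℝ), r * (r + 1) / 2 ≤ m + 1 ∧
        (∀ p v, a (w p) v = Ev a (b (ph φ₀ h t)) j * b (ph φ₀ h t) (w p) v) ∧
        (∀ p p', b (ph φ₀ h t) (w p) (w p') = if p = p' then 1 else 0) ∧ (∀ p, 0 < c p) ∧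
        ∑ p, c p = 1 ∧
        ∀ l, ∑ p, c p * kap μ i (h l) (ph φ₀ h t) (w p) = avg μ (h l) (ph φ₀ h t) + 2 * t l := by
  classical
  obtain ⟨hF, hA, hexp, hk⟩ := Pool.Agent.Q205.QLim.facts μ i a b hSf hB
  obtain ⟨l1, l2, l3, -, l5⟩ := Pool.Agent.Y390.QR.LIP.lip M μ H a b hF hexp
  set φt : EuclideanSpace ℝ (Fin m) → C(M, ℝ) := ph φ₀ h with hφt
  -- the functional
  set L : ℕ → EuclideanSpace ℝ (Fin m) → ℝ := fun j t =>
    Real.log (Ev a (b (φt t)) j / (j + 1)) - Real.log (4 * π / ∫ x, Real.exp (φt t x) ∂μ) with hL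
  have hj1 : ∀ j : ℕ, (0 : ℝ) < j + 1 := fun j => by positivity
  have hpi : (0 : ℝ) < 4 * π := by positivity
  have hLA : ∀ φ : C(M, ℝ), Real.log (4 * π / ∫ x, Real.exp (φ x) ∂μ) =
      Real.log (4 * π) - Real.log (∫ x, Real.exp (φ x) ∂μ) := fun φ =>
    Real.log_div hpi.ne' (hA φ).ne'
  have hlip : ∀ j s t, |L j s - L j t| ≤ (2 * ∑ l, ‖h l‖) * ‖s - t‖ := by
    intro j s t
    have h1 := ph_sub φ₀ h s t
    have hAl : |Real.log (∫ x, Real.exp (φt s x) ∂μ) - Real.log (∫ x, Real.exp (φt t x) ∂μ)| ≤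
        ‖φt s - φt t‖ := by
      rw [abs_le]
      constructor
      · have h2 := logl (hA (φt t)) (hA (φt s)) (A_le μ (φt t) (φt s))
        rw [norm_sub_rev] at h2
        linarith
      · exact logl (hA (φt s)) (hA (φt t)) (A_le μ (φt s) (φt t))
    have hEl : |Real.log (Ev a (b (φt s)) j / (j + 1)) - Real.log (Ev a (b (φt t)) j / (j + 1))| ≤
        ‖φt s - φt t‖ := by
      rcases l5 j with h0 | h0
      · rw [h0, h0, sub_self, abs_zero]
        exact norm_nonneg _
      · rw [Real.log_div (h0 _).ne' (hj1 j).ne', Real.log_div (h0 _).ne' (hj1 j).ne',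
          sub_sub_sub_cancel_right, abs_le]
        constructor
        · have h2 := logl (h0 (φt t)) (h0 (φt s)) (l3 (φt t) (φt s) j)
          rw [norm_sub_rev] at h2
          linarith
        · exact logl (h0 (φt s)) (h0 (φt t)) (l3 (φt s) (φt t) j)
    have e1 : L j s - L j t =
        (Real.log (Ev a (b (φt s)) j / (j + 1)) - Real.log (Ev a (b (φt t)) j / (j + 1))) +
        (Real.log (∫ x, Real.exp (φt s x) ∂μ) - Real.log (∫ x, Real.exp (φt t x) ∂μ)) := by
      simp only [hL, hLA]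
      ring
    rw [e1]
    refine (abs_add_le _ _).trans ?_
    have h1' : ‖φt s - φt t‖ ≤ (∑ l, ‖h l‖) * ‖s - t‖ := h1
    linarith
  have hlim : ∀ t, Tendsto (fun j => L j t) atTop (𝓝 0) := by
    intro t
    have h1 : Tendsto (fun j : ℕ => Real.log (Ev a (b (φt t)) j / (j + 1))) atTop
        (𝓝 (Real.log (4 * π / ∫ x, Real.exp (φt t x) ∂μ))) :=
      (Real.continuousAt_log (div_pos hpi (hA (φt t))).ne').tendsto.comp (hW (φt t))
    have h2 := h1.sub_const (Real.log (4 * π / ∫ x, Real.exp (φt t x) ∂μ))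
    rwa [sub_self] at h2
  obtain ⟨J₁, hJ₁⟩ := unif L _ hlip hlim δ (δ ^ 2 / 4) (by positivity)
  -- the eigenvalues are positive
  obtain ⟨J₂, hJ₂⟩ : ∃ J₂ : ℕ, ∀ j, J₂ ≤ j → ∀ φ, 0 < Ev a (b φ) j := by
    have h1 := (hW φ₀).eventually_const_lt (div_pos hpi (hA φ₀))
    obtain ⟨J₂, hJ₂⟩ := eventually_atTop.1 h1
    refine ⟨J₂, fun j hj => ?_⟩
    have h2 := hJ₂ j hj
    rcases l5 j with h0 | h0
    · rw [h0, zero_div] at h2
      exact absurd h2 (lt_irrefl _)
    · exact h0
  refine ⟨max J₁ J₂, fun j hj => ?_⟩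
  have hpos := hJ₂ j ((le_max_right _ _).trans hj)
  have hLc : Continuous (L j) := by
    refine (LipschitzWith.of_dist_le_mul (K := Real.toNNReal (2 * ∑ l, ‖h l‖)) fun s t => ?_).continuous
    rw [Real.dist_eq, dist_eq_norm, Real.coe_toNNReal _ (by positivity)]
    exact hlip j s t
  obtain ⟨t, ht, hmin⟩ := exmin (L j) hLc δ (δ ^ 2 / 4) hδ (by nlinarith [sq_pos_of_pos hδ])
    (hJ₁ j ((le_max_left _ _).trans hj))
  refine ⟨t, ht, ?_⟩
  set φ : C(M, ℝ) := φt t with hφ
  obtain ⟨e, E, hE⟩ := hex φ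
  have hEj : Ev a (b φ) j = E j := Pool.Agent.Y592.QE.mm H a (b φ) (hF φ) e E hE j
  set S : Finset ℕ := (clfin hE (E j)).toFinset with hS
  have hSm : ∀ l, l ∈ S ↔ E l = E j := fun l => by rw [hS]; simp
  choose k ksym k1 k2 using fun l => hk (h l)
  -- the forms on the eigenspace
  let K : Fin m → EuclideanSpace ℝ S →ₗ[ℝ] EuclideanSpace ℝ S →ₗ[ℝ] ℝ := fun l =>
    LinearMap.mk₂ ℝ (fun x y => k l φ (T e S x) (T e S y))
      (fun x y z => by simp) (fun c x y => by simp) (fun x y z => by simp) (fun c x y => by simp)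
  have hK : ∀ l x, K l x x = kap μ i (h l) φ (T e S x) := fun l x => (k1 l φ _).1
  have hKc : ∀ l, Continuous fun x => K l x x := by
    intro l
    show Continuous fun x => k l φ (T e S x) (T e S x)
    fun_prop
  obtain ⟨r, w, c, hr, hw, hc0, hc1, hq⟩ := sepo K hKc
    (fun l => avg μ (h l) φ + 2 * t l) (by
      intro s u hu
      set hs : C(M, ℝ) := ∑ l, s l • h l with hhs
      have havg : avg μ hs φ = ∑ l, s l * avg μ (h l) φ := by
        rw [hhs]
        have : ∀ S' : Finset (Fin m), avg μ (∑ l ∈ S', s l • h l) φ =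
            ∑ l ∈ S', s l * avg μ (h l) φ := by
          intro S'
          induction S' using Finset.induction_on with
          | empty => simp [Pool.Agent.Y378.QR.avg_zero]
          | insert x S'' hx ih =>
            rw [Finset.sum_insert hx, Finset.sum_insert hx, Pool.Agent.Y378.QR.avg_add,
              Pool.Agent.Y378.QR.avg_smul, ih]
        exact this _
      have hkaps : ∀ v, kap μ i hs φ v = ∑ l, s l * kap μ i (h l) φ v := by
        intro v
        rw [hhs]
        have : ∀ S' : Finset (Fin m), kap μ i (∑ l ∈ S', s l • h l) φ v =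
            ∑ l ∈ S', s l * kap μ i (h l) φ v := by
          intro S'
          induction S' using Finset.induction_on with
          | empty => simp [Pool.Agent.Y378.QR.kap_zero]
          | insert x S'' hx ih =>
            rw [Finset.sum_insert hx, Finset.sum_insert hx, Pool.Agent.Y378.QR.kap_add,
              Pool.Agent.Y378.QR.kap_smul, ih]
        exact this _
      set s' : EuclideanSpace ℝ (Fin m) := WithLp.toLp 2 s with hs'
      have hmain := crit μ i a b hSf hB hex φ hs j hpos u (2 * inner ℝ t s') (‖s'‖ ^ 2)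
        ((δ - ‖t‖) / (‖s'‖ + 1)) (div_pos (by linarith) (by positivity)) (by
          intro v hv
          rw [hEj] at hv
          obtain ⟨x, rfl⟩ := clrep (hF φ) hE S hSm hv
          rw [hkaps, bT hE, real_inner_self_eq_norm_sq]
          by_cases hx : x = 0
          · subst hx
            have h0 : ∀ l, kap μ i (h l) φ 0 = 0 := fun l => by
              rw [← (k1 l φ _).1, map_zero]
            simp [h0]
          · have hxn : 0 < ‖x‖ := norm_pos_iff.2 hx
            have h1 := hu (‖x‖⁻¹ • x) (by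
              rw [norm_smul, norm_inv, norm_norm, inv_mul_cancel₀ hxn.ne'])
            have h2 : ∀ l, K l (‖x‖⁻¹ • x) (‖x‖⁻¹ • x) =
                (‖x‖ ^ 2)⁻¹ * kap μ i (h l) φ (T e S x) := by
              intro l
              rw [← hK]
              simp only [map_smul, LinearMap.smul_apply, smul_eq_mul]
              field_simp
            have h3 : ∑ l, s l * K l (‖x‖⁻¹ • x) (‖x‖⁻¹ • x) =
                (‖x‖ ^ 2)⁻¹ * ∑ l, s l * kap μ i (h l) φ (T e S x) := by
              rw [Finset.mul_sum]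
              exact Finset.sum_congr rfl fun l _ => by rw [h2]; ring
            rw [h3, inv_mul_eq_div, le_div_iff₀ (by positivity)] at h1
            exact h1)
        (by
          intro τ hτ hτδ
          have h1 : ‖t + τ • s'‖ ≤ δ := by
            refine (norm_add_le _ _).trans ?_
            rw [norm_smul, Real.norm_eq_abs, abs_of_pos hτ]
            rw [lt_div_iff₀ (by positivity)] at hτδ
            nlinarith [norm_nonneg s']
          have h2 := hmin (t + τ • s') h1
          have h3 : ‖t + τ • s'‖ ^ 2 = ‖t‖ ^ 2 + 2 * inner ℝ t s' * τ + ‖s'‖ ^ 2 * τ ^ 2 := by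
            rw [norm_add_sq_real, real_inner_smul_right, norm_smul, Real.norm_eq_abs, mul_pow,
              sq_abs]
            ring
          have h4 : φt (t + τ • s') = φ + τ • hs := ph_line φ₀ h s' t τ
          rw [h3] at h2
          simp only [hL, hLA] at h2
          rw [h4, Real.log_div (hpos _).ne' (hj1 j).ne',
            Real.log_div (hpos _).ne' (hj1 j).ne'] at h2
          linarith)
      rw [havg] at hmain
      refine hmain.trans (le_of_eq ?_)
      have h5 : inner ℝ t s' = ∑ l, s l * t l := by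
        rw [PiLp.inner_apply]
        refine Finset.sum_congr rfl fun l _ => ?_
        simp [hs']
      rw [h5, Finset.mul_sum, ← Finset.sum_add_distrib]
      exact Finset.sum_congr rfl fun l _ => by ring)
  refine ⟨r, fun p => T e S (w p), c, hr, fun p v => ?_, fun p p' => ?_, hc0, hc1, fun l => ?_⟩
  · rw [hEj]
    exact aT hE S (fun l hl => (hSm l).1 hl) (w p) v
  · rw [bT hE]
    exact hw p p'
  · rw [← hq l]
    exact Finset.sum_congr rfl fun p _ => by rw [hK]

end abs

end Pool.Agent.J4.H84.QM
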