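import Pool.Agent.J4.H84.QM.Abs

/-!
# Mixed states on surfaces
-/

set_option autoImplicit false

open Set Filter Topology MeasureTheory
open scoped Real ContDiff

noncomputable section

namespace Pool.Agent.J4.H84.QM

open Pool.Agent.Y262.QE Pool.Agent.Y264.QR

variable {M : Type} [MetricSpace M] [CompactSpace M] [MeasurableSpace M] [BorelSpace M]

/-- the integral of `f v²` for the area of `exp φ · g` -/
def mass (μ : Measure M) (f φ : C(M, ℝ)) (v : M → ℝ) : ℝ :=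
  ∫ x, f x * (v x) ^ 2 ∂(wm μ fun x => Real.exp (φ x))

/-- the mean value of `f` -/
def mean (μ : Measure M) (f φ : C(M, ℝ)) : ℝ :=
  (∫ x, f x ∂(wm μ fun x => Real.exp (φ x))) / (wm μ fun x => Real.exp (φ x)).real univ

/-- finitely many orthonormal eigenfunctions with positive weights of sum one -/
structure Mixed (D : Data M) (μ : Measure M) (lam : ℝ) (r : ℕ) (w : Fin r → M → ℝ)
    (c : Fin r → ℝ) : Prop where
  eig : ∀ p, D.IsEig μ lam (w p)
  orth : ∀ p p', ∫ x, w p x * w p' x ∂μ = if p = p' then 1 else 0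
  pos : ∀ p, 0 < c p
  sum : ∑ p, c p = 1

theorem fin1 [Nonempty M] (μ : Measure M) (D : Data M) (hD : D.IsSurf μ)
    (F : Type) [AddCommGroup F] [Module ℝ F] [TopologicalSpace F]
    [IsTopologicalAddGroup F] [ContinuousSMul ℝ F]
    (ι : F →L[ℝ] C(M, ℝ)) (hι : DenseRange ι)
    (u : F → ℕ → M → ℝ) (lam : F → ℕ → ℝ)
    (hu : ∀ φ, EigBasis (D.conf fun x => Real.exp (ι φ x)) (wm μ fun x => Real.exp (ι φ x))
      (u φ) (lam φ)) (φ₀ : F) (V : Set F) (hV : V ∈ 𝓝 φ₀) (m : ℕ) (f : Fin m → C(M, ℝ)) (ε : ℝ)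
    (hε : 0 < ε) :
    ∃ J : ℕ, ∀ j, J ≤ j → ∃ φ ∈ V, ∃ (r : ℕ) (w : Fin r → M → ℝ) (c : Fin r → ℝ),
      r * (r + 1) / 2 ≤ m + 1 ∧
      Mixed (D.conf fun x => Real.exp (ι φ x)) (wm μ fun x => Real.exp (ι φ x)) (lam φ j) r w c ∧
      (∀ p (g : C(M, ℝ)), |mass μ g (ι φ) (w p)| ≤ ‖g‖) ∧
      ∀ l, |∑ p, c p * mass μ (f l) (ι φ) (w p) - mean μ (f l) (ι φ)| < ε := by
  classical
  obtain ⟨hf, -⟩ := tFin M μ D hD
  haveI := hf
  obtain ⟨i, a, hSf, hi, ha⟩ := tPackF M μ D hD inferInstance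
  obtain ⟨b, hB, hF, -, -, -⟩ := tFm M μ (HF D μ) i a hSf
  have hW := tWl M μ D hD inferInstance i a b hSf hi ha hB
  obtain ⟨-, hA, hexp, hk⟩ := Pool.Agent.Q205.QLim.facts μ i a b hSf hB
  have hex : ∀ φ, ∃ (e : ℕ → HF D μ) (E : ℕ → ℝ), Eg a (b φ) e E := by
    intro φ
    obtain ⟨u, lam, h⟩ := tEx M μ D hD inferInstance φ
    obtain ⟨e, -, h2⟩ := tBr M μ D hD i a b hSf hi ha hB hF φ u lam h
    exact ⟨e, lam, h2⟩
  -- approximation of the test functions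
  have hg : ∀ l, ∃ g : F, ‖ι g - f l‖ < ε / 4 := by
    intro l
    have h1 : f l ∈ closure (range ι) := hι (f l)
    obtain ⟨_, ⟨g, rfl⟩, h2⟩ := Metric.mem_closure_iff.1 h1 (ε / 4) (by positivity)
    exact ⟨g, by rwa [dist_comm, dist_eq_norm] at h2⟩
  choose g hg using hg
  let Γ : EuclideanSpace ℝ (Fin m) → F := fun t => φ₀ + ∑ l, t l • g l
  have hΓc : Continuous Γ := by
    refine continuous_const.add (continuous_finsetSum _ fun l _ => ?_)
    exact (by fun_prop : Continuous fun t : EuclideanSpace ℝ (Fin m) => t l).smul continuous_const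
  have hΓ0 : Γ 0 = φ₀ := by simp [Γ]
  have hΓV : Γ ⁻¹' V ∈ 𝓝 (0 : EuclideanSpace ℝ (Fin m)) := by
    refine hΓc.continuousAt.preimage_mem_nhds ?_
    rw [hΓ0]
    exact hV
  obtain ⟨δ₀, hδ₀, hball⟩ := Metric.mem_nhds_iff.1 hΓV
  have hΓι : ∀ t, ι (Γ t) = ph (ι φ₀) (fun l => ι (g l)) t := by
    intro t
    simp only [Γ, ph, map_add, map_sum, map_smul]
  obtain ⟨J, hJ⟩ := absm μ i a b hSf hB hW hex (ι φ₀) (fun l => ι (g l)) (min δ₀ (ε / 8))
    (lt_min hδ₀ (by positivity))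
  refine ⟨J, fun j hj => ?_⟩
  obtain ⟨t, ht, r, w, c, hr, hw1, hw2, hc0, hc1, hq⟩ := hJ j hj
  have htV : Γ t ∈ V := hball (mem_ball_zero_iff.2 (ht.trans_le (min_le_left _ _)))
  set φ : F := Γ t with hφ
  rw [← hΓι t] at hw1 hw2 hq
  have hlam : Ev a (b (ι φ)) j = lam φ j := by
    obtain ⟨e, -, h2⟩ := tBr M μ D hD i a b hSf hi ha hB hF (ι φ) (u φ) (lam φ) (hu φ)
    exact Pool.Agent.Y592.QE.mm _ a (b (ι φ)) (hF _) e (lam φ) h2 j
  rw [hlam] at hw1
  have hwc : Continuous fun x => Real.exp (ι φ x) := Real.continuous_exp.comp (ι φ).continuous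
  have hm : Measurable fun x => Real.exp (ι φ x) := hwc.measurable
  have h0 : ∀ x, 0 ≤ Real.exp (ι φ x) := fun x => (Real.exp_pos _).le
  have hkap : ∀ (g' : C(M, ℝ)) (p : Fin r), kap μ i g' (ι φ) (w p) =
      mass μ g' (ι φ) ((w p).1.fst : M → ℝ) := by
    intro g' p
    refine kap_eq μ i g' (ι φ) (w p) _ ?_
    rw [hi]
  have hkb : ∀ (g' : C(M, ℝ)) (p : Fin r), |kap μ i g' (ι φ) (w p)| ≤ ‖g'‖ := by
    intro g' p
    obtain ⟨k, -, k1, -⟩ := hk g'
    have h1 := (k1 (ι φ) (w p)).2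
    rw [(k1 (ι φ) (w p)).1, hw2, if_pos rfl, mul_one] at h1
    exact h1
  have hmean : ∀ g' : C(M, ℝ), avg μ g' (ι φ) = mean μ g' (ι φ) := fun g' => avg_eq μ g' (ι φ)
  refine ⟨φ, htV, r, fun p => ((w p).1.fst : M → ℝ), c, hr, ⟨?_, ?_, hc0, hc1⟩, ?_, ?_⟩
  · intro p
    refine eigF tGr tFin tConf tDenF M μ D hD _ hwc (fun x => Real.exp_pos _) (lam φ j)
      (w p).1 (w p).2 fun v' hv' => ?_
    have h1 := hw1 p ⟨v', hv'⟩
    rw [ha, hB, hi, hi] at h1
    exact h1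
  · intro p p'
    rw [integral_wm μ _ hm h0, ← hw2 p p', hB, hi, hi]
  · intro p g'
    rw [← hkap]
    exact hkb g' p
  · intro l
    have e1 : ∑ p, c p * mass μ (f l) (ι φ) ((w p).1.fst : M → ℝ) - mean μ (f l) (ι φ) =
        ∑ p, c p * kap μ i (f l - ι (g l)) (ι φ) (w p) + 2 * t l +
          avg μ (ι (g l) - f l) (ι φ) := by
      have h1 : ∀ p, c p * mass μ (f l) (ι φ) ((w p).1.fst : M → ℝ) =
          c p * kap μ i (f l - ι (g l)) (ι φ) (w p) + c p * kap μ i (ι (g l)) (ι φ) (w p) := by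
        intro p
        rw [← hkap, Pool.Agent.Y378.QR.kap_sub]
        ring
      have h2 : avg μ (ι (g l) - f l) (ι φ) = avg μ (ι (g l)) (ι φ) - avg μ (f l) (ι φ) := by
        have h3 := Pool.Agent.Y378.QR.avg_add (μ := μ) (ι (g l) - f l) (f l) (ι φ)
        rw [sub_add_cancel] at h3
        linarith
      rw [Finset.sum_congr rfl fun p _ => h1 p, Finset.sum_add_distrib, h2, ← hmean]
      have h4 := hq l
      rw [h4]
      ring
    have e2 : |∑ p, c p * kap μ i (f l - ι (g l)) (ι φ) (w p)| ≤ ε / 4 := by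
      refine (Finset.abs_sum_le_sum_abs _ _).trans ?_
      have h1 : ∀ p, |c p * kap μ i (f l - ι (g l)) (ι φ) (w p)| ≤ c p * (ε / 4) := by
        intro p
        rw [abs_mul, abs_of_pos (hc0 p)]
        refine mul_le_mul_of_nonneg_left ((hkb _ p).trans ?_) (hc0 p).le
        rw [norm_sub_rev]
        exact (hg l).le
      refine (Finset.sum_le_sum fun p _ => h1 p).trans ?_
      rw [← Finset.sum_mul, hc1, one_mul]
    have e3 : |avg μ (ι (g l) - f l) (ι φ)| ≤ ε / 4 :=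
      (Pool.Agent.Y155.QR.avg_le μ hA _ _).trans (hg l).le
    have e4 : |2 * t l| < ε / 4 := by
      rw [abs_mul, abs_of_pos (by norm_num : (0 : ℝ) < 2)]
      have h1 : |t l| ≤ ‖t‖ := PiLp.norm_apply_le t l
      have h2 := ht.trans_le (min_le_right _ _)
      linarith
    rw [e1]
    calc _ ≤ |∑ p, c p * kap μ i (f l - ι (g l)) (ι φ) (w p)| + |2 * t l| +
          |avg μ (ι (g l) - f l) (ι φ)| :=
          (abs_add_le _ _).trans (add_le_add (abs_add_le _ _) le_rfl)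
      _ < ε := by linarith

end Pool.Agent.J4.H84.QM
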