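import Pool.Agent.J4.H84.QM.Fin
import Pool.Agent.Q205.QLim.Gen

/-!
# Mixed states on surfaces: complex eigenfunctions, sequences of metrics
-/

set_option autoImplicit false

open Set Filter Topology MeasureTheory
open scoped Real ContDiff

noncomputable section

namespace Pool.Agent.J4.H84.QM

open Pool.Agent.Y262.QE Pool.Agent.Y264.QR

variable {M : Type} [MetricSpace M] [CompactSpace M] [MeasurableSpace M] [BorelSpace M]

/-- multiples of eigenfunctions -/
theorem eig_smul (μ : Measure M) (D : Data M) (hD : D.IsSurf μ) {lam : ℝ} {u : M → ℝ}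
    (hu : D.IsEig μ lam u) (α : ℝ) : D.IsEig μ lam (fun x => α * u x) := by
  obtain ⟨-, -, hG⟩ := tGr M μ D hD
  have hC : ∀ F, D.C1 F → D.C1 (fun x => α * F x) ∧
      ∀ x, D.gr (fun x => α * F x) x = α • D.gr F x := by
    intro F hF
    obtain ⟨h1, h2⟩ := hG F F hF hF α 0
    have e1 : (fun x => α * F x + 0 * F x) = fun x => α * F x := by
      funext x
      ring
    rw [e1] at h1 h2
    refine ⟨h1, fun x => ?_⟩
    rw [h2, zero_smul, add_zero]
  obtain ⟨hm, F, hF, h1, h2, h3⟩ := hu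
  refine ⟨hm.const_mul α, fun k x => α * F k x, fun k => (hC _ (hF k)).1, ?_, ?_, ?_⟩
  · have e1 : ∀ k, ∫ x, (α * F k x - α * u x) ^ 2 ∂μ = α ^ 2 * ∫ x, (F k x - u x) ^ 2 ∂μ := by
      intro k
      rw [← integral_const_mul]
      refine integral_congr_ae (Eventually.of_forall fun x => ?_)
      ring
    simp only [e1]
    simpa using h1.const_mul (α ^ 2)
  · have e1 : ∀ p : ℕ × ℕ, ∫ x, ‖D.gr (fun x => α * F p.1 x) x -
        D.gr (fun x => α * F p.2 x) x‖ ^ 2 ∂μ =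
        α ^ 2 * ∫ x, ‖D.gr (F p.1) x - D.gr (F p.2) x‖ ^ 2 ∂μ := by
      intro p
      rw [← integral_const_mul]
      refine integral_congr_ae (Eventually.of_forall fun x => ?_)
      simp only
      rw [(hC _ (hF p.1)).2, (hC _ (hF p.2)).2, ← smul_sub, norm_smul, mul_pow, Real.norm_eq_abs,
        sq_abs]
    simp only [e1]
    simpa using h2.const_mul (α ^ 2)
  · intro G hG'
    have e1 : ∀ k, ∫ x, inner ℝ (D.gr (fun x => α * F k x) x) (D.gr G x) ∂μ =
        α * ∫ x, inner ℝ (D.gr (F k) x) (D.gr G x) ∂μ := by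
      intro k
      rw [← integral_const_mul]
      refine integral_congr_ae (Eventually.of_forall fun x => ?_)
      simp only
      rw [(hC _ (hF k)).2, real_inner_smul_left]
    have e2 : lam * ∫ x, α * u x * G x ∂μ = α * (lam * ∫ x, u x * G x ∂μ) := by
      have : ∫ x, α * u x * G x ∂μ = α * ∫ x, u x * G x ∂μ := by
        rw [← integral_const_mul]
        refine integral_congr_ae (Eventually.of_forall fun x => ?_)
        ring
      rw [this]
      ring
    simp only [e1, e2]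
    exact (h3 G hG').const_mul α

lemma mass_int {μ : Measure M} (f φ : C(M, ℝ)) {v : M → ℝ}
    (hv : MemLp v 2 (wm μ fun x => Real.exp (φ x))) :
    Integrable (fun x => f x * (v x) ^ 2) (wm μ fun x => Real.exp (φ x)) :=
  hv.integrable_sq.bdd_mul (c := ‖f‖) f.continuous.aestronglyMeasurable
    (Eventually.of_forall fun x => f.norm_coe_le_norm x)

lemma mass_sub {μ : Measure M} (f g φ : C(M, ℝ)) {v : M → ℝ}
    (hv : MemLp v 2 (wm μ fun x => Real.exp (φ x))) :
    mass μ (f - g) φ v = mass μ f φ v - mass μ g φ v := by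
  unfold mass
  rw [← integral_sub (mass_int f φ hv) (mass_int g φ hv)]
  refine integral_congr_ae (Eventually.of_forall fun x => ?_)
  simp only [ContinuousMap.sub_apply]
  ring

lemma mass_smul {μ : Measure M} (f φ : C(M, ℝ)) (v : M → ℝ) (α : ℝ) :
    mass μ f φ (fun x => α * v x) = α ^ 2 * mass μ f φ v := by
  unfold mass
  rw [← integral_const_mul]
  refine integral_congr_ae (Eventually.of_forall fun x => ?_)
  ring

lemma tri2 {r m : ℕ} (h : r * (r + 1) / 2 ≤ m + 1) (hm : m ≤ 4) : r ≤ 2 := by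
  by_contra hr
  rw [not_le] at hr
  have h1 : 3 * (3 + 1) / 2 ≤ r * (r + 1) / 2 :=
    Nat.div_le_div_right (Nat.mul_le_mul hr (Nat.succ_le_succ hr))
  omega

theorem fin2 [Nonempty M] (μ : Measure M) (D : Data M) (hD : D.IsSurf μ)
    (F : Type) [AddCommGroup F] [Module ℝ F] [TopologicalSpace F]
    [IsTopologicalAddGroup F] [ContinuousSMul ℝ F]
    (ι : F →L[ℝ] C(M, ℝ)) (hι : DenseRange ι)
    (u : F → ℕ → M → ℝ) (lam : F → ℕ → ℝ)
    (hu : ∀ φ, EigBasis (D.conf fun x => Real.exp (ι φ x)) (wm μ fun x => Real.exp (ι φ x))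
      (u φ) (lam φ)) (φ₀ : F) (V : Set F) (hV : V ∈ 𝓝 φ₀) (f : Fin 4 → C(M, ℝ)) (ε : ℝ)
    (hε : 0 < ε) :
    ∃ J : ℕ, ∀ j, J ≤ j → ∃ φ ∈ V, ∃ ψ : M → ℂ,
      (D.conf fun x => Real.exp (ι φ x)).IsEig (wm μ fun x => Real.exp (ι φ x)) (lam φ j)
        (fun x => (ψ x).re) ∧
      (D.conf fun x => Real.exp (ι φ x)).IsEig (wm μ fun x => Real.exp (ι φ x)) (lam φ j)
        (fun x => (ψ x).im) ∧
      ∫ x, ‖ψ x‖ ^ 2 ∂(wm μ fun x => Real.exp (ι φ x)) = 1 ∧
      ∀ l, |∫ x, f l x * ‖ψ x‖ ^ 2 ∂(wm μ fun x => Real.exp (ι φ x)) - mean μ (f l) (ι φ)| < ε := by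
  obtain ⟨J, hJ⟩ := fin1 μ D hD F ι hι u lam hu φ₀ V hV 4 f ε hε
  refine ⟨J, fun j hj => ?_⟩
  obtain ⟨φ, hφ, r, w, c, hr, hM, -, hq⟩ := hJ j hj
  refine ⟨φ, hφ, ?_⟩
  set D' := D.conf fun x => Real.exp (ι φ x) with hD'
  set μ' := wm μ fun x => Real.exp (ι φ x) with hμ'
  have hS : D'.IsSurf μ' := (tConf M μ D hD _
    (Real.continuous_exp.comp (ι φ).continuous) fun x => Real.exp_pos _).1
  have hr2 : r ≤ 2 := tri2 hr le_rfl
  -- two eigenfunctions
  obtain ⟨v₁, v₂, h1, h2, h3⟩ : ∃ v₁ v₂ : M → ℝ, D'.IsEig μ' (lam φ j) v₁ ∧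
      D'.IsEig μ' (lam φ j) v₂ ∧
      ∀ g : C(M, ℝ), mass μ g (ι φ) v₁ + mass μ g (ι φ) v₂ = ∑ p, c p * mass μ g (ι φ) (w p) := by
    have hr0 : r ≠ 0 := by
      rintro rfl
      have := hM.sum
      simp at this
    rcases (by omega : r = 1 ∨ r = 2) with rfl | rfl
    · refine ⟨fun x => Real.sqrt (c 0) * w 0 x, fun x => 0 * w 0 x, eig_smul μ' D' hS (hM.eig 0) _,
        eig_smul μ' D' hS (hM.eig 0) _, fun g => ?_⟩
      rw [mass_smul, mass_smul, Real.sq_sqrt (hM.pos 0).le]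
      simp
    · refine ⟨fun x => Real.sqrt (c 0) * w 0 x, fun x => Real.sqrt (c 1) * w 1 x,
        eig_smul μ' D' hS (hM.eig 0) _, eig_smul μ' D' hS (hM.eig 1) _, fun g => ?_⟩
      rw [mass_smul, mass_smul, Real.sq_sqrt (hM.pos 0).le, Real.sq_sqrt (hM.pos 1).le,
        Fin.sum_univ_two]
  have hint : ∀ g : C(M, ℝ), ∫ x, g x * ‖(⟨v₁ x, v₂ x⟩ : ℂ)‖ ^ 2 ∂μ' =
      ∑ p, c p * mass μ g (ι φ) (w p) := by
    intro g
    rw [← h3 g]
    unfold mass
    rw [← integral_add (mass_int g (ι φ) h1.mem) (mass_int g (ι φ) h2.mem)]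
    refine integral_congr_ae (Eventually.of_forall fun x => ?_)
    simp only [Complex.sq_norm, Complex.normSq_apply]
    ring
  refine ⟨fun x => ⟨v₁ x, v₂ x⟩, h1, h2, ?_, fun l => ?_⟩
  · have h4 := hint 1
    simp only [ContinuousMap.one_apply, one_mul] at h4
    rw [h4]
    have h5 : ∀ p, mass μ (1 : C(M, ℝ)) (ι φ) (w p) = 1 := by
      intro p
      have h6 := hM.orth p p
      rw [if_pos rfl] at h6
      rw [← h6]
      unfold mass
      refine integral_congr_ae (Eventually.of_forall fun x => ?_)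
      simp only [ContinuousMap.one_apply]
      ring
    simp only [h5, mul_one]
    exact hM.sum
  · rw [hint]
    exact hq l

theorem fin3 [Nonempty M] (μ : Measure M) (D : Data M) (hD : D.IsSurf μ)
    (F : Type) [AddCommGroup F] [Module ℝ F] [TopologicalSpace F]
    [IsTopologicalAddGroup F] [ContinuousSMul ℝ F] [FirstCountableTopology F]
    (ι : F →L[ℝ] C(M, ℝ)) (hι : DenseRange ι)
    (u : F → ℕ → M → ℝ) (lam : F → ℕ → ℝ)
    (hu : ∀ φ, EigBasis (D.conf fun x => Real.exp (ι φ x)) (wm μ fun x => Real.exp (ι φ x))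
      (u φ) (lam φ)) (φ₀ : F) (R : ℕ → ℕ) (hR : Tendsto R atTop atTop) (hR1 : ∀ j, 1 ≤ R j) :
    ∃ (φ : ℕ → F) (r : ℕ → ℕ) (w : ∀ j, Fin (r j) → M → ℝ) (c : ∀ j, Fin (r j) → ℝ),
      Tendsto φ atTop (𝓝 φ₀) ∧
      (∀ j, r j ≤ R j ∧ Mixed (D.conf fun x => Real.exp (ι (φ j) x))
        (wm μ fun x => Real.exp (ι (φ j) x)) (lam (φ j) j) (r j) (w j) (c j)) ∧
      ∀ f : C(M, ℝ), Tendsto (fun j => ∑ p, c j p * mass μ f (ι (φ j)) (w j p)) atTop
        (𝓝 (mean μ f (ι φ₀))) := by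
  classical
  obtain ⟨hf, -⟩ := tFin M μ D hD
  haveI := hf
  have hA : ∀ φ : C(M, ℝ), 0 < ∫ x, Real.exp (φ x) ∂μ := by
    obtain ⟨i, a, hSf, hi, ha⟩ := tPackF M μ D hD inferInstance
    obtain ⟨b, hB, -, hA, -, -⟩ := tFm M μ (HF D μ) i a hSf
    exact hA
  obtain ⟨V, hV⟩ := (𝓝 φ₀).exists_antitone_basis
  set d : ℕ → C(M, ℝ) := TopologicalSpace.denseSeq C(M, ℝ) with hd
  choose J hJ using fun n : ℕ => fin1 μ D hD F ι hι u lam hu φ₀ (V n) (hV.1.mem_of_mem trivial) n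
    (fun l => d l) (1 / ((n : ℝ) + 1)) (by positivity)
  have hR' : ∀ n : ℕ, ∃ K : ℕ, ∀ j, K ≤ j → n + 1 ≤ R j := fun n =>
    eventually_atTop.1 (hR.eventually_ge_atTop (n + 1))
  choose K hK using hR'
  set J' : ℕ → ℕ := fun n => max (J n) (K n) with hJ'
  set N : ℕ → ℕ := fun j => Nat.findGreatest (fun n => J' n ≤ j) j with hN
  have hNspec : ∀ j, J' 0 ≤ j → J' (N j) ≤ j := fun j hj =>
    Nat.findGreatest_spec (P := fun n => J' n ≤ j) (Nat.zero_le j) hj
  have hNle : ∀ n j, n ≤ j → J' n ≤ j → n ≤ N j := fun n j h1 h2 =>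
    Nat.le_findGreatest h1 h2
  have key : ∀ j, ∃ (φ : F) (r : ℕ) (w : Fin r → M → ℝ) (c : Fin r → ℝ), r ≤ R j ∧
      Mixed (D.conf fun x => Real.exp (ι φ x)) (wm μ fun x => Real.exp (ι φ x)) (lam φ j) r w c ∧
      (J' 0 ≤ j → φ ∈ V (N j) ∧ (∀ p (g : C(M, ℝ)), |mass μ g (ι φ) (w p)| ≤ ‖g‖) ∧
        ∀ l, l < N j → |∑ p, c p * mass μ (d l) (ι φ) (w p) - mean μ (d l) (ι φ)| <
          1 / ((N j : ℝ) + 1)) := by
    intro j
    by_cases hj : J' 0 ≤ j
    · have h1 := hNspec j hj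
      obtain ⟨φ, hφ, r, w, c, hr, hM, hb, hq⟩ := hJ (N j) j ((le_max_left _ _).trans h1)
      refine ⟨φ, r, w, c, ?_, hM, fun _ => ⟨hφ, hb, fun l hl => hq ⟨l, hl⟩⟩⟩
      exact (le_tri hr).trans (hK (N j) j ((le_max_right _ _).trans h1))
    · refine ⟨φ₀, 1, fun _ => u φ₀ j, fun _ => 1, hR1 j, ⟨fun _ => (hu φ₀).eig j, ?_,
        fun _ => one_pos, by simp⟩, fun h => absurd h hj⟩
      intro p p'
      rw [(hu φ₀).orth, if_pos rfl, if_pos (Subsingleton.elim p p')]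
  choose φ r w c hr hM hφ using key
  have hφlim : Tendsto φ atTop (𝓝 φ₀) := by
    refine hV.1.tendsto_right_iff.2 fun n _ => ?_
    filter_upwards [eventually_ge_atTop (max n (max (J' n) (J' 0)))] with j hj
    have h1 : J' 0 ≤ j := (le_max_right _ _).trans ((le_max_right _ _).trans hj)
    have h2 : J' n ≤ j := (le_max_left _ _).trans ((le_max_right _ _).trans hj)
    have h3 := hNle n j ((le_max_left _ _).trans hj) h2
    exact hV.2 h3 (hφ j h1).1
  refine ⟨φ, r, w, c, hφlim, fun j => ⟨hr j, hM j⟩, fun f => ?_⟩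
  -- the mean values
  have hml : Tendsto (fun j => mean μ f (ι (φ j))) atTop (𝓝 (mean μ f (ι φ₀))) := by
    have h1 : ∀ ψ : C(M, ℝ), mean μ f ψ = avg μ f ψ := fun ψ => (avg_eq μ f ψ).symm
    simp only [h1]
    exact (((Pool.Agent.Q205.QLim.avg_continuous μ hA f).comp ι.continuous).tendsto φ₀).comp hφlim
  have hdiff : Tendsto (fun j => ∑ p, c j p * mass μ f (ι (φ j)) (w j p) -
      mean μ f (ι (φ j))) atTop (𝓝 0) := by
    rw [Metric.tendsto_atTop]
    intro ε hε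
    obtain ⟨l, hl⟩ : ∃ l, ‖d l - f‖ < ε / 4 := by
      obtain ⟨_, ⟨l, rfl⟩, h2⟩ := Metric.mem_closure_iff.1
        (TopologicalSpace.denseRange_denseSeq C(M, ℝ) f) (ε / 4) (by positivity)
      exact ⟨l, by rwa [dist_comm, dist_eq_norm] at h2⟩
    obtain ⟨n₀, hn₀⟩ := exists_nat_one_div_lt (show (0 : ℝ) < ε / 4 by positivity)
    set n := max (l + 1) n₀ with hn
    refine ⟨max n (max (J' n) (J' 0)), fun j hj => ?_⟩
    have h1 : J' 0 ≤ j := (le_max_right _ _).trans ((le_max_right _ _).trans hj)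
    have h2 : J' n ≤ j := (le_max_left _ _).trans ((le_max_right _ _).trans hj)
    have h3 := hNle n j ((le_max_left _ _).trans hj) h2
    obtain ⟨-, hb, hq⟩ := hφ j h1
    have h4 := hq l ((Nat.lt_succ_self l).trans_le ((le_max_left _ _).trans h3))
    have h5 : 1 / ((N j : ℝ) + 1) < ε / 4 := by
      refine lt_of_le_of_lt ?_ hn₀
      refine one_div_le_one_div_of_le (by positivity) ?_
      have : (n₀ : ℝ) ≤ N j := by exact_mod_cast (le_max_right _ _).trans h3
      linarith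
    have h6 : |∑ p, c j p * mass μ (f - d l) (ι (φ j)) (w j p)| ≤ ε / 4 := by
      refine (Finset.abs_sum_le_sum_abs _ _).trans ?_
      have h7 : ∀ p, |c j p * mass μ (f - d l) (ι (φ j)) (w j p)| ≤ c j p * (ε / 4) := by
        intro p
        rw [abs_mul, abs_of_pos ((hM j).pos p)]
        refine mul_le_mul_of_nonneg_left ((hb p _).trans ?_) ((hM j).pos p).le
        rw [norm_sub_rev]
        exact hl.le
      refine (Finset.sum_le_sum fun p _ => h7 p).trans ?_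
      rw [← Finset.sum_mul, (hM j).sum, one_mul]
    have h8 : |mean μ (d l) (ι (φ j)) - mean μ f (ι (φ j))| ≤ ε / 4 := by
      have e1 : mean μ (d l) (ι (φ j)) - mean μ f (ι (φ j)) = avg μ (d l - f) (ι (φ j)) := by
        have e2 := Pool.Agent.Y378.QR.avg_add (μ := μ) (d l - f) f (ι (φ j))
        rw [sub_add_cancel] at e2
        have e3 : ∀ g, mean μ g (ι (φ j)) = avg μ g (ι (φ j)) := fun g => (avg_eq μ g _).symm
        rw [e3, e3]
        linarith
      rw [e1]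
      exact (Pool.Agent.Y155.QR.avg_le μ hA _ _).trans hl.le
    have h9 : ∑ p, c j p * mass μ f (ι (φ j)) (w j p) - mean μ f (ι (φ j)) =
        ∑ p, c j p * mass μ (f - d l) (ι (φ j)) (w j p) +
        (∑ p, c j p * mass μ (d l) (ι (φ j)) (w j p) - mean μ (d l) (ι (φ j))) +
        (mean μ (d l) (ι (φ j)) - mean μ f (ι (φ j))) := by
      have e1 : ∀ p, c j p * mass μ f (ι (φ j)) (w j p) =
          c j p * mass μ (f - d l) (ι (φ j)) (w j p) + c j p * mass μ (d l) (ι (φ j)) (w j p) := by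
        intro p
        rw [mass_sub f (d l) (ι (φ j)) ((hM j).eig p).mem]
        ring
      rw [Finset.sum_congr rfl fun p _ => e1 p, Finset.sum_add_distrib]
      ring
    rw [Real.dist_eq, sub_zero, h9]
    calc _ ≤ |∑ p, c j p * mass μ (f - d l) (ι (φ j)) (w j p)| +
          |∑ p, c j p * mass μ (d l) (ι (φ j)) (w j p) - mean μ (d l) (ι (φ j))| +
          |mean μ (d l) (ι (φ j)) - mean μ f (ι (φ j))| :=
          (abs_add_le _ _).trans (add_le_add (abs_add_le _ _) le_rfl)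
      _ < ε := by linarith
  have h1 := hdiff.add hml
  rw [zero_add] at h1
  refine h1.congr fun j => ?_
  ring

end Pool.Agent.J4.H84.QM
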