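import Pool.Agent.J4.H84.QM.Sep
import Pool.Agent.Y264.QR.All
import Pool.Agent.Q205.QLim.One

/-!
# Mixed states: the minimum of the penalized eigenvalue
-/

set_option autoImplicit false

open Set Filter Topology MeasureTheory
open scoped Real ContDiff

noncomputable section

namespace Pool.Agent.J4.H84.QM

open Pool.Agent.Y262.QE Pool.Agent.Y264.QR

/-! ### Uniform convergence on balls, minimum -/

theorem unif {E : Type} [NormedAddCommGroup E] [ProperSpace E] (L : ℕ → E → ℝ) (C : ℝ)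
    (hL : ∀ j s t, |L j s - L j t| ≤ C * ‖s - t‖)
    (h0 : ∀ t, Tendsto (fun j => L j t) atTop (𝓝 0)) (δ η : ℝ) (hη : 0 < η) :
    ∃ J : ℕ, ∀ j, J ≤ j → ∀ t, ‖t‖ ≤ δ → |L j t| ≤ η := by
  set ρ : ℝ := η / (2 * (|C| + 1)) with hρ
  have hρ0 : 0 < ρ := by positivity
  obtain ⟨T, hTb, hTf, hT⟩ := (isCompact_closedBall (0 : E) δ).finite_cover_balls hρ0
  have h1 : ∀ᶠ j in atTop, ∀ x ∈ T, |L j x| < η / 2 := by
    rw [eventually_all_finite hTf]
    intro x _
    have h2 := (h0 x).abs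
    rw [abs_zero] at h2
    exact h2.eventually_lt_const (by positivity)
  obtain ⟨J, hJ⟩ := eventually_atTop.1 h1
  refine ⟨J, fun j hj t ht => ?_⟩
  obtain ⟨x, hx, hxt⟩ := mem_iUnion₂.1 (hT (mem_closedBall_zero_iff.2 ht))
  have h2 := hJ j hj x hx
  have h3 := hL j t x
  have h4 : ‖t - x‖ < ρ := by rwa [mem_ball_iff_norm] at hxt
  have h5 : C * ‖t - x‖ ≤ η / 2 := by
    have h6 : C * ‖t - x‖ ≤ (|C| + 1) * ρ := by
      refine mul_le_mul ?_ h4.le (norm_nonneg _) (by positivity)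
      linarith [le_abs_self C]
    have h7 : (|C| + 1) * ρ = η / 2 := by
      rw [hρ]
      field_simp
    linarith
  have h6 : |L j t| ≤ |L j t - L j x| + |L j x| := by
    have := abs_add_le (L j t - L j x) (L j x)
    rwa [sub_add_cancel] at this
  linarith

theorem exmin {E : Type} [NormedAddCommGroup E] [ProperSpace E] (L : E → ℝ) (hc : Continuous L)
    (δ η : ℝ) (hδ : 0 < δ) (hη : 2 * η < δ ^ 2) (h : ∀ t, ‖t‖ ≤ δ → |L t| ≤ η) :
    ∃ t, ‖t‖ < δ ∧ ∀ t', ‖t'‖ ≤ δ → L t + ‖t‖ ^ 2 ≤ L t' + ‖t'‖ ^ 2 := by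
  have hcc : ContinuousOn (fun t => L t + ‖t‖ ^ 2) (Metric.closedBall (0 : E) δ) :=
    (hc.add (continuous_norm.pow 2)).continuousOn
  obtain ⟨t, ht, hmin⟩ := (isCompact_closedBall (0 : E) δ).exists_isMinOn
    ⟨0, mem_closedBall_zero_iff.2 (by rw [norm_zero]; exact hδ.le)⟩ hcc
  have ht' : ‖t‖ ≤ δ := mem_closedBall_zero_iff.1 ht
  have hmin' : ∀ t', ‖t'‖ ≤ δ → L t + ‖t‖ ^ 2 ≤ L t' + ‖t'‖ ^ 2 := fun t' h' =>
    hmin (mem_closedBall_zero_iff.2 h')
  refine ⟨t, ?_, hmin'⟩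
  have h1 := hmin' 0 (by rw [norm_zero]; exact hδ.le)
  rw [norm_zero] at h1
  have h2 := abs_le.1 (h t ht')
  have h3 := abs_le.1 (h 0 (by rw [norm_zero]; exact hδ.le))
  by_contra hne
  have h4 : ‖t‖ = δ := le_antisymm ht' (not_lt.1 hne)
  rw [h4] at h1
  nlinarith [h2.1, h3.2]

/-! ### Eigenvectors -/

section forms

variable {H : Type} [NormedAddCommGroup H] [InnerProductSpace ℝ H]

theorem clfin {a b : H →L[ℝ] H →L[ℝ] ℝ} {e : ℕ → H} {E : ℕ → ℝ} (hE : Eg a b e E) (lam : ℝ) :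
    {l | E l = lam}.Finite := by
  obtain ⟨N, hN⟩ := eventually_atTop.1 (hE.tt.eventually_gt_atTop lam)
  refine (Set.finite_lt_nat N).subset fun l hl => ?_
  by_contra h
  have h1 := hN l (not_lt.1 h)
  rw [(hl : E l = lam)] at h1
  exact lt_irrefl _ h1

/-- the vector with the coordinates `x` in the eigenspace -/
def T (e : ℕ → H) (s : Finset ℕ) : EuclideanSpace ℝ s →L[ℝ] H :=
  LinearMap.toContinuousLinearMap
    { toFun := fun x => ∑ l : s, x l • e l
      map_add' := by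
        intro x y
        simp only [PiLp.add_apply, add_smul, Finset.sum_add_distrib]
      map_smul' := by
        intro c x
        simp only [PiLp.smul_apply, smul_eq_mul, RingHom.id_apply, Finset.smul_sum, mul_smul] }

lemma T_apply (e : ℕ → H) (s : Finset ℕ) (x : EuclideanSpace ℝ s) :
    T e s x = ∑ l : s, x l • e l := rfl

lemma bT {a b : H →L[ℝ] H →L[ℝ] ℝ} {e : ℕ → H} {E : ℕ → ℝ} (hE : Eg a b e E) (s : Finset ℕ)
    (x y : EuclideanSpace ℝ s) : b (T e s x) (T e s y) = inner ℝ x y := by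
  classical
  rw [T_apply, T_apply]
  have h1 := Pool.Agent.Y726.QE.bil_diag b (fun l : s => e l) (fun _ => 1) (fun l l' => by
    rw [hE.orth]
    by_cases h : l = l'
    · subst h; simp
    · have h' : (l : ℕ) ≠ (l' : ℕ) := fun h2 => h (Subtype.ext h2)
      rw [if_neg h, if_neg h']) x.ofLp y.ofLp
  rw [h1, PiLp.inner_apply]
  refine Finset.sum_congr rfl fun l _ => ?_
  simp [mul_comm]

lemma aT {a b : H →L[ℝ] H →L[ℝ] ℝ} {e : ℕ → H} {E : ℕ → ℝ} (hE : Eg a b e E) (s : Finset ℕ)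
    {lam : ℝ} (hs : ∀ l ∈ s, E l = lam) (x : EuclideanSpace ℝ s) (v : H) :
    a (T e s x) v = lam * b (T e s x) v := by
  rw [T_apply, map_sum, map_sum, ContinuousLinearMap.sum_apply, ContinuousLinearMap.sum_apply,
    Finset.mul_sum]
  refine Finset.sum_congr rfl fun l _ => ?_
  rw [map_smul, map_smul, ContinuousLinearMap.smul_apply, ContinuousLinearMap.smul_apply, hE.eig,
    hs l l.2, smul_eq_mul, smul_eq_mul]
  ring

/-- every eigenvector is a combination of the vectors of the basis with the same eigenvalue -/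
theorem clrep {a b : H →L[ℝ] H →L[ℝ] ℝ} (hF : Fm a b) {e : ℕ → H} {E : ℕ → ℝ}
    (hE : Eg a b e E) {lam : ℝ} (s : Finset ℕ) (hs : ∀ l, l ∈ s ↔ E l = lam) {v : H}
    (hv : ∀ w, a v w = lam * b v w) : ∃ x : EuclideanSpace ℝ s, v = T e s x := by
  classical
  have h0 : ∀ l, l ∉ s → b v (e l) = 0 := by
    intro l hl
    have h1 := hv (e l)
    rw [hF.sa, hE.eig, hF.sb (e l) v] at h1
    have h2 : (E l - lam) * b v (e l) = 0 := by linarith
    rcases mul_eq_zero.1 h2 with h3 | h3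
    · exact absurd ((hs l).2 (by linarith)) hl
    · exact h3
  set x : EuclideanSpace ℝ s := WithLp.toLp 2 fun l : s => b v (e l) with hx
  refine ⟨x, ?_⟩
  have hbv : b v v = ∑ l ∈ s, (b v (e l)) ^ 2 := by
    have h1 := hE.sum v
    have h2 : HasSum (fun j => (b v (e j)) ^ 2) (∑ l ∈ s, (b v (e l)) ^ 2) :=
      hasSum_sum_of_ne_finset_zero fun l hl => by rw [h0 l hl]; ring
    exact h1.unique h2
  have hvT : b v (T e s x) = ∑ l ∈ s, (b v (e l)) ^ 2 := by
    rw [T_apply, map_sum, ← Finset.sum_coe_sort s]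
    refine Finset.sum_congr rfl fun l _ => ?_
    rw [map_smul, smul_eq_mul, hx]
    simp [sq]
  have hTT : b (T e s x) (T e s x) = ∑ l ∈ s, (b v (e l)) ^ 2 := by
    rw [bT hE, real_inner_self_eq_norm_sq, EuclideanSpace.norm_sq_eq, ← Finset.sum_coe_sort s]
    refine Finset.sum_congr rfl fun l _ => ?_
    rw [hx]
    simp
  have hbz : b (v - T e s x) (v - T e s x) = 0 := by
    have h1 : b (v - T e s x) (v - T e s x) =
        b v v - b v (T e s x) - b (T e s x) v + b (T e s x) (T e s x) := by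
      simp only [map_sub, ContinuousLinearMap.sub_apply]
      ring
    rw [h1, hF.sb (T e s x) v, hvT, hTT, hbv]
    ring
  have haz : a (v - T e s x) (v - T e s x) = 0 := by
    have h1 : a (v - T e s x) (v - T e s x) = lam * b (v - T e s x) (v - T e s x) := by
      have h2 : ∀ w, a (v - T e s x) w = lam * b (v - T e s x) w := by
        intro w
        rw [map_sub, map_sub, ContinuousLinearMap.sub_apply, ContinuousLinearMap.sub_apply, hv,
          aT hE s (fun l hl => (hs l).1 hl)]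
        ring
      exact h2 _
    rw [h1, hbz, mul_zero]
  obtain ⟨c, hc, hco⟩ := hF.co
  have h1 := hco (v - T e s x)
  rw [haz, hbz, add_zero] at h1
  have h2 : ‖v - T e s x‖ ^ 2 ≤ 0 := by
    by_contra h
    have := mul_pos hc (not_le.1 h)
    linarith
  have h3 : ‖v - T e s x‖ = 0 := by
    nlinarith [norm_nonneg (v - T e s x), sq_nonneg ‖v - T e s x‖]
  exact sub_eq_zero.1 (norm_eq_zero.1 h3)

end forms

/-! ### The critical point -/

section crit

variable {M : Type} [MetricSpace M] [CompactSpace M] [MeasurableSpace M] [BorelSpace M]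
  (μ : Measure M) [IsFiniteMeasure μ] {H : Type} [NormedAddCommGroup H] [InnerProductSpace ℝ H]
  (i : H →L[ℝ] Lp ℝ 2 μ) (a : H →L[ℝ] H →L[ℝ] ℝ) (b : C(M, ℝ) → H →L[ℝ] H →L[ℝ] ℝ)
  (hSf : Sf μ i a) (hB : IsB μ i b)

lemma avg_add' (hA : ∀ φ : C(M, ℝ), 0 < ∫ x, Real.exp (φ x) ∂μ) (h φ : C(M, ℝ)) :
    HasDerivAt (fun s : ℝ => Real.log (∫ x, Real.exp ((φ + s • h) x) ∂μ)) (avg μ h φ) 0 := by
  have h1 := (Pool.Agent.Y155.QR.hdA μ φ h 0).log (hA (φ + (0 : ℝ) • h)).ne'
  simpa [avg] using h1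

include hSf hB in
theorem crit (hex : ∀ φ, ∃ (e : ℕ → H) (E : ℕ → ℝ), Eg a (b φ) e E) (φ h : C(M, ℝ)) (j : ℕ)
    (hpos : ∀ φ, 0 < Ev a (b φ) j) (u ρ C' δ : ℝ) (hδ : 0 < δ)
    (hu : ∀ v, (∀ w, a v w = Ev a (b φ) j * b φ v w) → u * b φ v v ≤ kap μ i h φ v)
    (hmin : ∀ τ : ℝ, 0 < τ → τ < δ →
      Real.log (Ev a (b φ) j) + Real.log (∫ x, Real.exp (φ x) ∂μ) ≤
      Real.log (Ev a (b (φ + τ • h)) j) + Real.log (∫ x, Real.exp ((φ + τ • h) x) ∂μ) +
        ρ * τ + C' * τ ^ 2) :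
    u ≤ avg μ h φ + ρ := by
  obtain ⟨hF, hA, hexp, hk⟩ := Pool.Agent.Q205.QLim.facts μ i a b hSf hB
  obtain ⟨l1, l2, l3, -, l5⟩ := Pool.Agent.Y390.QR.LIP.lip M μ H a b hF hexp
  by_contra hcon
  rw [not_le] at hcon
  set A := avg μ h φ with hAdef
  set c : ℝ := ‖h‖ + |u| + |ρ| + |A| + 1 with hc
  have hc0 : 0 < c := by positivity
  set h' : C(M, ℝ) := h + c • (1 : C(M, ℝ)) with hh'
  obtain ⟨k, ksym, k1, k2⟩ := hk h'
  obtain ⟨e, E, hE⟩ := hex φ
  have hEj : Ev a (b φ) j = E j := Pool.Agent.Y592.QE.mm H a (b φ) (hF φ) e E hE j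
  have hkap1 : ∀ v, kap μ i (1 : C(M, ℝ)) φ v = b φ v v := by
    intro v
    rw [hB, kap]
    refine integral_congr_ae (Eventually.of_forall fun x => ?_)
    simp only [ContinuousMap.one_apply]
    ring
  have hkap : ∀ v, k φ v v = kap μ i h φ v + c * b φ v v := by
    intro v
    rw [(k1 φ v).1, hh', Pool.Agent.Y378.QR.kap_add, Pool.Agent.Y378.QR.kap_smul, hkap1]
  have hknn : ∀ v, 0 ≤ k φ v v ∧ k φ v v ≤ ‖h'‖ * b φ v v := by
    intro v
    refine ⟨?_, (le_abs_self _).trans (k1 φ v).2⟩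
    rw [(k1 φ v).1, kap]
    refine integral_nonneg fun x => ?_
    have h1 : 0 ≤ h' x := by
      have h2 : |h x| ≤ ‖h‖ := h.norm_coe_le_norm x
      have h3 := (abs_le.1 h2).1
      have h4 : h' x = h x + c := by
        simp only [hh', ContinuousMap.add_apply, ContinuousMap.smul_apply, ContinuousMap.one_apply,
          smul_eq_mul, mul_one]
      rw [h4, hc]
      linarith [abs_nonneg u, abs_nonneg ρ, abs_nonneg A]
    positivity
  set m' : ℝ := c + (u + A + ρ) / 2 with hm'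
  have hm'0 : 0 ≤ m' := by
    have h1 := neg_abs_le u
    have h2 := neg_abs_le A
    have h3 := neg_abs_le ρ
    have h4 := norm_nonneg h
    rw [hm', hc]
    linarith [abs_nonneg u, abs_nonneg ρ, abs_nonneg A]
  have hmm : m' < u + c := by
    rw [hm']
    linarith
  obtain ⟨δ₁, hδ₁, hder⟩ := Pool.Agent.Y726.QE.der H a (b φ) (hF φ) e E hE (k φ) ‖h'‖ (ksym φ)
    hknn j (u + c) m' hm'0 hmm (fun v hv => by
      have h1 := hu v (by rw [hEj]; exact hv)
      rw [hkap v]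
      linarith)
  -- the upper bound for the eigenvalue
  have hup : ∀ τ : ℝ, 0 < τ → τ < min δ δ₁ → (m' - c - ρ) - C' * τ ≤
      τ⁻¹ * (Real.log (∫ x, Real.exp ((φ + τ • h) x) ∂μ) -
        Real.log (∫ x, Real.exp (φ x) ∂μ)) := by
    intro τ hτ hτδ
    have h1 := hder τ hτ (hτδ.trans_le (min_le_right _ _)) (b (φ + τ • h')) (k2 φ · τ)
    have h2 := l3 (φ + τ • h) (φ + τ • h') j
    have h3 : ‖(φ + τ • h) - (φ + τ • h')‖ ≤ τ * c := by
      have e1 : (φ + τ • h) - (φ + τ • h') = -(τ * c) • (1 : C(M, ℝ)) := by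
        ext x
        simp only [hh', ContinuousMap.sub_apply, ContinuousMap.add_apply,
          ContinuousMap.smul_apply, ContinuousMap.one_apply, smul_eq_mul]
        ring
      rw [e1]
      rw [ContinuousMap.norm_le _ (by positivity)]
      intro x
      simp only [ContinuousMap.smul_apply, ContinuousMap.one_apply, smul_eq_mul, mul_one,
        norm_neg, Real.norm_eq_abs]
      rw [abs_of_pos (by positivity)]
    have h4 : Ev a (b (φ + τ • h)) j ≤ Real.exp (τ * c) * (E j * (1 - m' * τ)) := by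
      refine h2.trans ?_
      exact mul_le_mul (Real.exp_le_exp.2 h3) h1 (l1 _ _) (Real.exp_pos _).le
    have h5 := hpos (φ + τ • h)
    have hEj0 : 0 < E j := by rw [← hEj]; exact hpos φ
    have h6 : 0 < 1 - m' * τ := by
      by_contra h7
      have h8 : E j * (1 - m' * τ) ≤ 0 := mul_nonpos_of_nonneg_of_nonpos hEj0.le (not_lt.1 h7)
      have h9 : Real.exp (τ * c) * (E j * (1 - m' * τ)) ≤ 0 :=
        mul_nonpos_of_nonneg_of_nonpos (Real.exp_pos _).le h8
      linarith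
    have h7 : Real.log (Ev a (b (φ + τ • h)) j) ≤ τ * c + (Real.log (E j) - m' * τ) := by
      refine (Real.log_le_log h5 h4).trans ?_
      rw [Real.log_mul (Real.exp_pos _).ne' (mul_pos hEj0 h6).ne', Real.log_exp,
        Real.log_mul hEj0.ne' h6.ne']
      have h8 := Real.log_le_sub_one_of_pos h6
      linarith
    have h8 := hmin τ hτ (hτδ.trans_le (min_le_left _ _))
    rw [hEj] at h8
    have h9 : ((m' - c - ρ) - C' * τ) * τ ≤ Real.log (∫ x, Real.exp ((φ + τ • h) x) ∂μ) -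
        Real.log (∫ x, Real.exp (φ x) ∂μ) := by
      have e2 : ((m' - c - ρ) - C' * τ) * τ = m' * τ - τ * c - ρ * τ - C' * τ ^ 2 := by ring
      rw [e2]
      linarith
    rw [inv_mul_eq_div, le_div_iff₀ hτ]
    exact h9
  have hd := avg_add' μ hA h φ
  have hs := hd.tendsto_slope_zero_right
  have hlim : Tendsto (fun τ : ℝ => (m' - c - ρ) - C' * τ) (𝓝[>] 0) (𝓝 ((m' - c - ρ) - C' * 0)) := by
    refine Tendsto.mono_left ?_ nhdsWithin_le_nhds
    exact (by fun_prop : Continuous fun τ : ℝ => (m' - c - ρ) - C' * τ).tendsto 0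
  have hle := le_of_tendsto_of_tendsto hlim hs (by
    have h1 : Ioo (0 : ℝ) (min δ δ₁) ∈ 𝓝[>] (0 : ℝ) :=
      Ioo_mem_nhdsGT (lt_min hδ hδ₁)
    filter_upwards [h1] with τ hτ
    have h2 := hup τ hτ.1 hτ.2
    simpa using h2)
  rw [mul_zero, sub_zero] at hle
  rw [hm'] at hle
  linarith

end crit

end Pool.Agent.J4.H84.QM
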