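import Mathlib

/-!
# Mixed states: reduction of the rank, separation

Finite families of vectors with prescribed values of several quadratic forms.
-/

set_option autoImplicit false

open Set Filter Topology

noncomputable section

namespace Pool.Agent.J4.H84.QM

/-- spectral theorem for a symmetric real matrix, in coordinates -/
lemma spec {r : ℕ} (S : Fin r → Fin r → ℝ) (hS : ∀ l l', S l l' = S l' l) :
    ∃ (U : Fin r → Fin r → ℝ) (g : Fin r → ℝ),
      (∀ l l', ∑ p, U l p * U l' p = if l = l' then 1 else 0) ∧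
      (∀ p p', ∑ l, U l p * U l p' = if p = p' then 1 else 0) ∧
      ∀ l l', S l l' = ∑ p, g p * (U l p * U l' p) := by
  classical
  have hA : (Matrix.of S).IsHermitian := by
    ext i j
    simp [Matrix.conjTranspose_apply, hS i j]
  set U : Matrix (Fin r) (Fin r) ℝ := (hA.eigenvectorUnitary : Matrix (Fin r) (Fin r) ℝ) with hU
  have h1 : U * star U = 1 := Unitary.coe_mul_star_self hA.eigenvectorUnitary
  have h2 : star U * U = 1 := Unitary.coe_star_mul_self hA.eigenvectorUnitary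
  refine ⟨fun l p => U l p, hA.eigenvalues, ?_, ?_, ?_⟩
  · intro l l'
    have h := congrFun (congrFun h1 l) l'
    rw [Matrix.mul_apply, Matrix.one_apply] at h
    simpa [Matrix.star_apply] using h
  · intro p p'
    have h := congrFun (congrFun h2 p) p'
    rw [Matrix.mul_apply, Matrix.one_apply] at h
    simpa [Matrix.star_apply] using h
  · intro l l'
    have h3 := hA.spectral_theorem
    have h4 := congrFun (congrFun h3 l) l'
    simp only [Matrix.of_apply] at h4
    rw [h4]
    simp only [Unitary.conjStarAlgAut_apply]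
    rw [Matrix.mul_apply]
    refine Finset.sum_congr rfl fun p _ => ?_
    rw [Matrix.mul_diagonal, Matrix.star_apply]
    simp [hU]
    ring

section forms

variable {V : Type} [AddCommGroup V] [Module ℝ V]

lemma bsum (B : V →ₗ[ℝ] V →ₗ[ℝ] ℝ) {r : ℕ} (c d : Fin r → ℝ) (v : Fin r → V) :
    B (∑ l, c l • v l) (∑ l, d l • v l) = ∑ l, ∑ l', c l * d l' * B (v l) (v l') := by
  have h0 : B (∑ l, c l • v l) = ∑ l, c l • B (v l) := by
    rw [map_sum]
    exact Finset.sum_congr rfl fun i _ => map_smul B (c i) (v i)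
  rw [h0, LinearMap.sum_apply]
  refine Finset.sum_congr rfl fun l _ => ?_
  rw [map_sum]
  refine Finset.sum_congr rfl fun l' _ => ?_
  simp only [map_smul, LinearMap.smul_apply, smul_eq_mul]
  ring

/-- the sum of the values of `B` with the weights `g` on the rotated family -/
lemma rot (B : V →ₗ[ℝ] V →ₗ[ℝ] ℝ) {r : ℕ} (v : Fin r → V) (U : Fin r → Fin r → ℝ)
    (g : Fin r → ℝ) :
    ∑ p, g p * B (∑ l, U l p • v l) (∑ l, U l p • v l) =
      ∑ l, ∑ l', (∑ p, g p * (U l p * U l' p)) * B (v l) (v l') := by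
  have h1 : ∀ p, g p * B (∑ l, U l p • v l) (∑ l, U l p • v l) =
      ∑ l, ∑ l', g p * (U l p * U l' p) * B (v l) (v l') := by
    intro p
    rw [bsum B (fun l => U l p) (fun l => U l p) v, Finset.mul_sum]
    refine Finset.sum_congr rfl fun l _ => ?_
    rw [Finset.mul_sum]
    exact Finset.sum_congr rfl fun l' _ => by ring
  simp only [h1]
  rw [Finset.sum_comm]
  refine Finset.sum_congr rfl fun l _ => ?_
  rw [Finset.sum_comm]
  exact Finset.sum_congr rfl fun l' _ => by rw [Finset.sum_mul]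

lemma rot1 (B : V →ₗ[ℝ] V →ₗ[ℝ] ℝ) {r : ℕ} (v : Fin r → V) (U : Fin r → Fin r → ℝ)
    (hU : ∀ l l', ∑ p, U l p * U l' p = if l = l' then 1 else 0) :
    ∑ p, B (∑ l, U l p • v l) (∑ l, U l p • v l) = ∑ l, B (v l) (v l) := by
  have h := rot B v U (fun _ => 1)
  simp only [one_mul] at h
  rw [h]
  refine Finset.sum_congr rfl fun l _ => ?_
  rw [Finset.sum_eq_single l]
  · rw [hU, if_pos rfl, one_mul]
  · intro l' _ hne
    rw [hU, if_neg (Ne.symm hne), zero_mul]
  · intro h; exact absurd (Finset.mem_univ l) h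

/-- one step of the reduction -/
lemma step {N r : ℕ} (β : Fin N → V →ₗ[ℝ] V →ₗ[ℝ] ℝ)
    (v : Fin r → V) (hr : N < r * (r + 1) / 2) :
    ∃ (r' : ℕ) (w : Fin r' → V), r' < r ∧ ∀ i, ∑ l, β i (w l) (w l) = ∑ l, β i (v l) (v l) := by
  classical
  -- a symmetric matrix in the kernel
  let Φ : (Sym2 (Fin r) → ℝ) →ₗ[ℝ] (Fin N → ℝ) :=
    { toFun := fun x i => ∑ l, ∑ l', x s(l, l') * β i (v l) (v l')
      map_add' := by
        intro x y
        funext i
        simp only [Pi.add_apply, add_mul, Finset.sum_add_distrib]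
      map_smul' := by
        intro c x
        funext i
        simp only [Pi.smul_apply, smul_eq_mul, RingHom.id_apply, Finset.mul_sum, mul_assoc] }
  have hcard : Module.finrank ℝ (Fin N → ℝ) < Module.finrank ℝ (Sym2 (Fin r) → ℝ) := by
    rw [Module.finrank_fin_fun, Module.finrank_fintype_fun_eq_card, Sym2.card, Fintype.card_fin,
      Nat.choose_two_right, Nat.add_sub_cancel, mul_comm]
    exact hr
  obtain ⟨x, hx, hx0⟩ := (Submodule.ne_bot_iff _).1 (LinearMap.ker_ne_bot_of_finrank_lt hcard)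
  have hker : ∀ i, ∑ l, ∑ l', x s(l, l') * β i (v l) (v l') = 0 := by
    intro i
    have h1 : Φ x = 0 := LinearMap.mem_ker.1 hx
    have h2 : Φ x i = (0 : Fin N → ℝ) i := by rw [h1]
    exact h2
  obtain ⟨U, g, hU1, hU2, hSg⟩ := spec (fun l l' => x s(l, l')) (fun l l' => by
    show x s(l, l') = x s(l', l)
    rw [Sym2.eq_swap])
  -- a nonzero eigenvalue of maximal absolute value
  have hg : ∃ p, g p ≠ 0 := by
    by_contra hne
    push_neg at hne
    refine hx0 (funext fun z => ?_)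
    induction z using Sym2.ind with
    | _ l l' =>
      have h := hSg l l'
      simp only [hne, zero_mul, Finset.sum_const_zero] at h
      simpa using h
  obtain ⟨p₀, hp₀⟩ := hg
  haveI : Nonempty (Fin r) := ⟨p₀⟩
  obtain ⟨p₁, hp₁⟩ := Finite.exists_max fun p => |g p|
  have hgp : g p₁ ≠ 0 := by
    intro h
    have h1 := hp₁ p₀
    rw [h, abs_zero] at h1
    exact hp₀ (abs_nonpos_iff.1 h1)
  set w : Fin r → V := fun p => Real.sqrt (1 - g p / g p₁) • ∑ l, U l p • v l with hw
  have hpos : ∀ p, 0 ≤ 1 - g p / g p₁ := by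
    intro p
    have h1 : |g p / g p₁| ≤ 1 := by
      rw [abs_div, div_le_one (abs_pos.2 hgp)]
      exact hp₁ p
    linarith [(abs_le.1 h1).2]
  have hsum : ∀ i, ∑ p, β i (w p) (w p) = ∑ l, β i (v l) (v l) := by
    intro i
    have h1 : ∀ p, β i (w p) (w p) = β i (∑ l, U l p • v l) (∑ l, U l p • v l) -
        (g p₁)⁻¹ * (g p * β i (∑ l, U l p • v l) (∑ l, U l p • v l)) := by
      intro p
      simp only [hw, map_smul, LinearMap.smul_apply, smul_eq_mul]
      rw [← mul_assoc, Real.mul_self_sqrt (hpos p)]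
      field_simp
    simp only [h1]
    rw [Finset.sum_sub_distrib, rot1 (β i) v U hU1, ← Finset.mul_sum, rot (β i) v U g]
    have h2 : ∑ l, ∑ l', (∑ p, g p * (U l p * U l' p)) * β i (v l) (v l') = 0 := by
      rw [← hker i]
      exact Finset.sum_congr rfl fun l _ => Finset.sum_congr rfl fun l' _ => by rw [← hSg]
    rw [h2, mul_zero, sub_zero]
  have hw0 : w p₁ = 0 := by
    simp only [hw, div_self hgp, sub_self, Real.sqrt_zero, zero_smul]
  obtain ⟨n, rfl⟩ : ∃ n, r = n + 1 := ⟨r - 1, by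
    have := p₀.pos
    omega⟩
  refine ⟨n, fun q => w (p₁.succAbove q), Nat.lt_succ_self n, fun i => ?_⟩
  rw [← hsum i, Fin.sum_univ_succAbove _ p₁, hw0]
  simp

/-- reduction of the number of vectors -/
theorem reduce {N R : ℕ} (β : Fin N → V →ₗ[ℝ] V →ₗ[ℝ] ℝ) (v : Fin R → V) :
    ∃ (r : ℕ) (w : Fin r → V), r * (r + 1) / 2 ≤ N ∧
      ∀ i, ∑ l, β i (w l) (w l) = ∑ l, β i (v l) (v l) := by
  induction R using Nat.strong_induction_on with
  | _ R ih =>
    by_cases h : R * (R + 1) / 2 ≤ N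
    · exact ⟨R, v, h, fun i => rfl⟩
    · obtain ⟨r', w, hr', hw⟩ := step β v (not_le.1 h)
      obtain ⟨r, w', hr, hw'⟩ := ih r' hr' w
      exact ⟨r, w', hr, fun i => (hw' i).trans (hw i)⟩

/-- an orthogonal family with the same sums -/
theorem diag (b : V →ₗ[ℝ] V →ₗ[ℝ] ℝ) (hb : ∀ u v, b u v = b v u) {r : ℕ} (v : Fin r → V) :
    ∃ w : Fin r → V, (∀ B : V →ₗ[ℝ] V →ₗ[ℝ] ℝ, ∑ l, B (w l) (w l) = ∑ l, B (v l) (v l)) ∧
      ∀ p p', p ≠ p' → b (w p) (w p') = 0 := by
  obtain ⟨U, g, hU1, hU2, hG⟩ := spec (fun l l' => b (v l) (v l')) (fun l l' => hb _ _)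
  refine ⟨fun p => ∑ l, U l p • v l, fun B => rot1 B v U hU1, fun p p' hne => ?_⟩
  show b (∑ l, U l p • v l) (∑ l, U l p' • v l) = 0
  rw [bsum b (fun l => U l p) (fun l => U l p') v]
  have h1 : ∀ l l', U l p * U l' p' * b (v l) (v l') =
      ∑ q, g q * ((U l p * U l q) * (U l' p' * U l' q)) := by
    intro l l'
    have h : b (v l) (v l') = ∑ q, g q * (U l q * U l' q) := hG l l'
    rw [h, Finset.mul_sum]
    exact Finset.sum_congr rfl fun q _ => by ring
  have h2 : ∀ l, ∑ l', U l p * U l' p' * b (v l) (v l') =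
      ∑ q, g q * (U l p * U l q) * (∑ l', U l' p' * U l' q) := by
    intro l
    simp only [h1]
    rw [Finset.sum_comm]
    refine Finset.sum_congr rfl fun q _ => ?_
    rw [Finset.mul_sum]
    exact Finset.sum_congr rfl fun l' _ => by ring
  simp only [h2]
  rw [Finset.sum_comm]
  refine Finset.sum_eq_zero fun q _ => ?_
  rw [← Finset.sum_mul]
  have h3 : ∑ l, g q * (U l p * U l q) = g q * ∑ l, U l p * U l q := by rw [Finset.mul_sum]
  rw [h3, hU2, hU2]
  by_cases hpq : p = q
  · subst hpq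
    rw [if_neg (Ne.symm hne), mul_zero]
  · rw [if_neg hpq, mul_zero, zero_mul]

/-- reduction to an orthogonal family of nonzero vectors -/
theorem reduce_orth {N R : ℕ} (β : Fin N → V →ₗ[ℝ] V →ₗ[ℝ] ℝ) (b : V →ₗ[ℝ] V →ₗ[ℝ] ℝ)
    (hb : ∀ u v, b u v = b v u) (v : Fin R → V) :
    ∃ (r : ℕ) (w : Fin r → V), r * (r + 1) / 2 ≤ N ∧
      (∀ i, ∑ l, β i (w l) (w l) = ∑ l, β i (v l) (v l)) ∧
      (∀ l, w l ≠ 0) ∧ ∀ l l', l ≠ l' → b (w l) (w l') = 0 := by
  classical
  obtain ⟨r₀, w₀, hr₀, hw₀⟩ := reduce β v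
  obtain ⟨w, hw, ho⟩ := diag b hb w₀
  -- remove the zero vectors
  let e := (Finset.univ.filter fun l => w l ≠ 0).equivFin.symm
  refine ⟨(Finset.univ.filter fun l => w l ≠ 0).card, fun p => w (e p).1, ?_, ?_, ?_, ?_⟩
  · refine le_trans (Nat.div_le_div_right ?_) hr₀
    have h1 : (Finset.univ.filter fun l => w l ≠ 0).card ≤ r₀ := by
      refine (Finset.card_filter_le _ _).trans ?_
      simp
    exact Nat.mul_le_mul h1 (Nat.succ_le_succ h1)
  · intro i
    rw [← hw₀ i, ← hw (β i)]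
    have h1 : ∑ p, β i (w (e p).1) (w (e p).1) =
        ∑ l : {l // l ∈ Finset.univ.filter fun l => w l ≠ 0}, β i (w l.1) (w l.1) :=
      Equiv.sum_comp e fun l => β i (w l.1) (w l.1)
    rw [h1, Finset.sum_coe_sort (Finset.univ.filter fun l => w l ≠ 0)
      (fun l => β i (w l) (w l))]
    refine Finset.sum_subset (Finset.filter_subset _ _) fun l _ hl => ?_
    have : w l = 0 := by
      by_contra hne
      exact hl (Finset.mem_filter.2 ⟨Finset.mem_univ _, hne⟩)
    rw [this, map_zero]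
  · intro p
    exact (Finset.mem_filter.1 (e p).2).2
  · intro p p' hne
    refine ho _ _ fun h => hne ?_
    exact e.injective (Subtype.ext h)

end forms

end Pool.Agent.J4.H84.QM
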